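import Pool.Agent.H32.S36.Targets

set_option autoImplicit false

open Complex

namespace Pool.Agent.H32.S36

theorem CM_t0_sq : t0 ^ 2 = -3 / 10 := by
  unfold t0
  rw [mul_pow, Complex.I_sq, ← Complex.ofReal_pow, Real.sq_sqrt (by norm_num)]
  push_cast
  norm_num

theorem CM_t0_im : 0 < t0.im := by
  unfold t0
  simp only [Complex.mul_im, Complex.I_re, Complex.I_im, Complex.ofReal_im, Complex.ofReal_re]
  have : 0 < Real.sqrt (3 / 10) := Real.sqrt_pos.2 (by norm_num)
  linarith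

theorem m_CM (h1 : T_P3) : T_CM := by
  intro x h D xz hz dz hP
  have hsq := CM_t0_sq
  have hne : t0 ≠ 0 := by
    intro h0
    have := CM_t0_im
    rw [h0] at this
    simp at this
  have him : 0 < (t0 / 3).im := by
    have h3 : (t0 / 3).im = t0.im / 3 := by
      have : t0 / 3 = t0 / ((3 : ℝ) : ℂ) := by norm_num
      rw [this, Complex.div_ofReal_im]
    rw [h3]
    have := CM_t0_im
    linarith
  have hw := hP.mh.w10 (t0 / 3) him
  have e1 : (-1 : ℂ) / (10 * (t0 / 3)) = t0 := by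
    rw [div_eq_iff (by simpa using hne)]
    have : t0 * (10 * (t0 / 3)) = 10 / 3 * t0 ^ 2 := by ring
    rw [this, hsq]
    norm_num
  have e2 : (10 : ℂ) * (t0 / 3) ^ 2 = -1 / 3 := by
    rw [div_pow, hsq]
    norm_num
  rw [e1, e2] at hw
  have e3 : ((-1 : ℂ) / 3) ^ (-1 : ℤ) = -3 := by norm_num
  rw [e3] at hw
  have hw2 : h t0 = 3 * h (t0 / 3) := by
    rw [hw]
    ring
  have : Fact (Nat.Prime 3) := ⟨Nat.prime_three⟩
  have hz0 : 3 * h t0 - hk 3 h (some (0 : ZMod 3)) t0 = 0 := by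
    unfold hk
    simp only [ZMod.val_zero, Nat.cast_zero, add_zero]
    push_cast
    rw [hw2]
    ring
  have hprod : (∏ i : Option (ZMod 3), (3 * h t0 - hk 3 h i t0)) = 0 :=
    Finset.prod_eq_zero (Finset.mem_univ (some (0 : ZMod 3))) hz0
  have hm := h1 x h D xz hz dz hP t0 CM_t0_im
  rw [hprod, zero_mul] at hm
  obtain ⟨r, hr, hxr⟩ := hP.cm
  have hx : x t0 = 36 := by
    rw [hxr] at hm ⊢
    have h2 : ((r : ℂ) - 36) * ((r : ℂ) + 9) * ((r : ℂ) - 1) = 0 := by
      have h3 : (-27 : ℂ) ≠ 0 := by norm_num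
      exact (mul_eq_zero.1 hm.symm).resolve_left h3
    have h4 : (r - 36) * (r + 9) * (r - 1) = 0 := by exact_mod_cast h2
    have h5 : r = 36 := by
      rcases mul_eq_zero.1 h4 with h6 | h6
      · rcases mul_eq_zero.1 h6 with h7 | h7
        · linarith
        · linarith
      · linarith
    rw [h5]
    norm_num
  refine ⟨hx, ?_⟩
  intro h0
  have := hP.f4 t0 CM_t0_im
  rw [h0, hx] at this
  norm_num at this

end Pool.Agent.H32.S36
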