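import Pool.Agent.H32.S36.Targets

set_option autoImplicit false

open Complex

namespace Pool.Agent.H32.S36

theorem CMX_qq (y : ℝ) : qq (I * (y : ℂ)) = ((Real.exp (-(2 * Real.pi * y)) : ℝ) : ℂ) := by
  unfold qq
  rw [Complex.ofReal_exp]
  congr 1
  push_cast
  have : (2 * (Real.pi : ℂ) * I * (I * (y : ℂ))) = 2 * Real.pi * y * (I * I) := by ring
  rw [this, Complex.I_mul_I]
  ring

theorem CMX_ee (y : ℝ) : ∃ a : ℝ, ee (I * (y : ℂ)) = (a : ℂ) := by
  refine ⟨∏' n : ℕ, (1 - (Real.exp (-(2 * Real.pi * y))) ^ (n + 1)), ?_⟩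
  unfold ee
  rw [CMX_qq]
  have h := Function.LeftInverse.map_tprod (L := SummationFilter.unconditional ℕ)
    (g := Complex.ofRealHom) (g' := Complex.re)
    (fun n : ℕ => (1 - (Real.exp (-(2 * Real.pi * y))) ^ (n + 1)))
    Complex.continuous_ofReal Complex.continuous_re (fun x => Complex.ofReal_re x)
  simp only [Complex.ofRealHom_eq_coe] at h
  rw [h]
  refine tprod_congr fun n => ?_
  push_cast
  rfl

theorem m_CMX (h1 : T_VEE) : T_CMX := by
  set y : ℝ := Real.sqrt (3 / 10) with hy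
  have hy0 : 0 < y := Real.sqrt_pos.2 (by norm_num)
  have ht : t0 = I * (y : ℂ) := rfl
  have ht2 : ∀ k : ℝ, (k : ℂ) * t0 = I * ((k * y : ℝ) : ℂ) := by
    intro k
    rw [ht]
    push_cast
    ring
  have him : ∀ k : ℝ, 0 < k → 0 < ((k : ℂ) * t0).im := by
    intro k hk
    rw [ht2]
    simp only [Complex.mul_im, Complex.I_re, Complex.I_im, Complex.ofReal_im, Complex.ofReal_re]
    nlinarith [mul_pos hk hy0]
  have him1 : 0 < t0.im := by
    have := him 1 one_pos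
    simpa using this
  have key : ∀ k : ℝ, 0 < k → ∃ a : ℝ, a ≠ 0 ∧ ee ((k : ℂ) * t0) = (a : ℂ) := by
    intro k hk
    obtain ⟨a, ha⟩ := CMX_ee (k * y)
    rw [← ht2] at ha
    refine ⟨a, ?_, ha⟩
    intro h0
    have := (h1 _ (him k hk)).1
    rw [ha, h0] at this
    exact this (by simp)
  obtain ⟨a1, n1, e1⟩ := key 1 one_pos
  obtain ⟨a2, n2, e2⟩ := key 2 two_pos
  obtain ⟨a5, n5, e5⟩ := key 5 (by norm_num)
  obtain ⟨a10, n10, e10⟩ := key 10 (by norm_num)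
  push_cast at e1 e2 e5 e10
  rw [one_mul] at e1
  obtain ⟨-, hv, -⟩ := h1 t0 him1
  rw [e1, e2, e5, e10, ht, CMX_qq] at hv
  rw [← ht] at hv
  set c : ℝ := Real.exp (-(2 * Real.pi * y)) with hc
  have hc0 : 0 < c := Real.exp_pos _
  have hb : ((a5 * a10) ^ 2 : ℝ) ≠ 0 := by positivity
  set v : ℝ := c⁻¹ * (a1 * a2) ^ 2 / (a5 * a10) ^ 2 with hvdef
  have hvpos : 0 < v := by positivity
  have hfv : fv t0 = (v : ℂ) := by
    have h2 : fv t0 * (((a5 * a10) ^ 2 : ℝ) : ℂ) = (v : ℂ) * (((a5 * a10) ^ 2 : ℝ) : ℂ) := by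
      rw [hvdef]
      push_cast
      rw [hv]
      have hb' : ((a5 : ℂ) * a10) ^ 2 ≠ 0 := by exact_mod_cast hb
      rw [div_mul_cancel₀ _ hb']
    have hb'' : (((a5 * a10) ^ 2 : ℝ) : ℂ) ≠ 0 := by exact_mod_cast hb
    exact mul_right_cancel₀ hb'' h2
  refine ⟨v + 6 + 25 / v, ?_, ?_⟩
  · have h3 : v + 6 + 25 / v - 16 = (v - 5) ^ 2 / v := by
      field_simp
      ring
    have h4 : 0 ≤ (v - 5) ^ 2 / v := by positivity
    linarith
  · unfold fx
    rw [hfv]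
    push_cast
    rfl

end Pool.Agent.H32.S36
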