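import Pool.Agent.H32.S36.Targets

set_option autoImplicit false

open Polynomial

namespace Pool.Agent.H32.S36

theorem D3_dvd_aeval (x : LaurentSeries ℤ) (Q : Polynomial ℤ) (m : ℤ)
    (h : ∀ k : ℕ, m ∣ Q.coeff k) : (m : LaurentSeries ℤ) ∣ aeval x Q := by
  have h2 : Polynomial.C m ∣ Q := (Polynomial.C_dvd_iff_dvd_coeff m Q).2 h
  obtain ⟨R, rfl⟩ := h2
  refine ⟨aeval x R, ?_⟩
  simp

theorem m_D3 (h1 : T_LAG) (h2 : T_UNI) : T_D3 := by
  intro x h hF P m hm
  have hx0 : x.coeff (-1) = 1 := hF.xm1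
  have hthx : th x ≠ 0 := by
    intro h0
    have := congrArg (fun f : LaurentSeries ℤ => f.coeff (-1)) h0
    simp [hx0] at this
  have hh0 : h ≠ 0 := by
    intro h0
    have := hF.hm1
    rw [h0] at this
    simp at this
  obtain ⟨-, -, h3⟩ := h1 x h hh0 hthx hF.e1 hF.e2 P
  obtain ⟨gx, hgx, -, -⟩ := h2 x (-1) hF.xlow hF.xm1
  obtain ⟨gh, hgh, -, -⟩ := h2 h (-1) hF.hlow hF.hm1
  have e : th (th (th (aeval x P * h))) = gx * gh * (x * h * th (th (th (aeval x P * h)))) := by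
    have e1 : gx * gh * (x * h * th (th (th (aeval x P * h)))) =
        (x * gx) * (h * gh) * th (th (th (aeval x P * h))) := by ring
    rw [e1, hgx, hgh]
    ring
  unfold DV
  rw [e, h3]
  obtain ⟨R, hR⟩ := D3_dvd_aeval x (LL P) m hm
  rw [hR]
  exact ⟨gx * gh * (th x * R), by ring⟩

end Pool.Agent.H32.S36
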