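import Pool.Agent.H32.S36.Targets

set_option autoImplicit false

namespace Pool.Agent.H32.S36

theorem m_E1 (h1 : T_MFF) (h2 : T_HHH) (h3 : T_VTR) : T_E1 := by
  intro τ hτ
  have hv : fv τ ≠ 0 := (h3.1 τ hτ).1
  have ha := h1.2.2 τ hτ
  have hb := (h2.2 τ hτ).1
  have hx : fx τ = fv τ + 6 + 25 / fv τ := rfl
  have e1 : fh τ * DD fx τ = -(fx τ * (fv τ - 25 / fv τ)) := by
    rw [ha, ← hb]
    ring
  have e2 : (fv τ - 25 / fv τ) ^ 2 = (fx τ - 16) * (fx τ + 4) := by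
    rw [hx]
    field_simp
    ring
  rw [e1, neg_sq, mul_pow, e2]

end Pool.Agent.H32.S36
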