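import Pool.Agent.H32.S36.Targets

set_option autoImplicit false

open Complex

namespace Pool.Agent.H32.S36

/-- product of two series with poles of order at most one: coefficients at `-2, -1, 0` -/
theorem E2_mul_coeff (f g : LaurentSeries ℤ) (hf : ∀ n : ℤ, n < -1 → f.coeff n = 0)
    (hg : ∀ n : ℤ, n < -1 → g.coeff n = 0) :
    (∀ n : ℤ, n < -2 → (f * g).coeff n = 0) ∧
    (f * g).coeff (-2) = f.coeff (-1) * g.coeff (-1) ∧
    (f * g).coeff (-1) = f.coeff (-1) * g.coeff 0 + f.coeff 0 * g.coeff (-1) ∧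
    (f * g).coeff 0 = f.coeff (-1) * g.coeff 1 + f.coeff 0 * g.coeff 0 + f.coeff 1 * g.coeff (-1) := by
  have key : ∀ n : ℤ, (f * g).coeff n =
      ∑ i ∈ Finset.Icc (-1 : ℤ) (n + 1), f.coeff i * g.coeff (n - i) := by
    intro n
    rw [HahnSeries.coeff_mul]
    have hinj : ∀ ij ∈ Finset.antidiagonal f.isPWO_support g.isPWO_support n,
        ij.1 ∈ Finset.Icc (-1 : ℤ) (n + 1) ∧ ij.2 = n - ij.1 := by
      intro ij hij
      simp only [Finset.mem_antidiagonal, HahnSeries.mem_support] at hij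
      obtain ⟨h1, h2, h3⟩ := hij
      have a1 : ¬ ij.1 < -1 := fun h => h1 (hf _ h)
      have a2 : ¬ ij.2 < -1 := fun h => h2 (hg _ h)
      refine ⟨Finset.mem_Icc.2 ⟨by omega, by omega⟩, by omega⟩
    have e : ∑ ij ∈ Finset.antidiagonal f.isPWO_support g.isPWO_support n,
        f.coeff ij.1 * g.coeff ij.2 =
        ∑ i ∈ (Finset.antidiagonal f.isPWO_support g.isPWO_support n).image Prod.fst,
          f.coeff i * g.coeff (n - i) := by
      rw [Finset.sum_image]
      · exact Finset.sum_congr rfl fun ij hij => by rw [← (hinj ij hij).2]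
      · intro a ha b hb hab
        have := (hinj a ha).2
        have := (hinj b hb).2
        exact Prod.ext hab (by simp_all)
    rw [e]
    refine Finset.sum_subset ?_ ?_
    · intro i hi
      obtain ⟨ij, hij, rfl⟩ := Finset.mem_image.1 hi
      exact (hinj ij hij).1
    · intro i _ hi
      by_contra hne
      apply hi
      refine Finset.mem_image.2 ⟨(i, n - i), ?_, rfl⟩
      simp only [Finset.mem_antidiagonal, HahnSeries.mem_support]
      refine ⟨fun h => hne (by rw [h, zero_mul]), fun h => hne (by rw [h, mul_zero]), by ring⟩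
  refine ⟨?_, ?_, ?_, ?_⟩
  · intro n hn
    rw [key, Finset.Icc_eq_empty (by omega), Finset.sum_empty]
  · rw [key]
    have : Finset.Icc (-1 : ℤ) (-2 + 1) = {-1} := by decide
    rw [this, Finset.sum_singleton]
    norm_num
  · rw [key]
    have : Finset.Icc (-1 : ℤ) (-1 + 1) = {-1, 0} := by decide
    rw [this, Finset.sum_insert (by decide), Finset.sum_singleton]
    norm_num
  · rw [key]
    have : Finset.Icc (-1 : ℤ) (0 + 1) = {-1, 0, 1} := by decide
    rw [this, Finset.sum_insert (by decide), Finset.sum_insert (by decide), Finset.sum_singleton]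
    norm_num
    ring

theorem m_E2 (h1 : T_BRA) (h2 : T_LIO) (h3 : T_HLM) (h4 : T_HLD) : T_E2 := by
  intro x h xz hz mx mh lx lh xlow xm1 x0 x1 hlow hm1 h0 h1' τ hτ
  have hB := h1 h mh
  have hD1 := (h4 h _ lh).2
  have hD2 := (h4 _ _ hD1).2
  -- the function
  have hF : MF 1 0 (fun τ => 2 * h τ * DD (DD h) τ - DD h τ ^ 2 - (x τ - 2) ^ 2) := by
    have hdx : ∀ τ : ℂ, 0 < τ.im → DifferentiableAt ℂ (fun τ => (x τ - 2) ^ 2) τ :=
      fun τ hτ => ((mx.hol τ hτ).sub_const 2).pow 2
    refine ⟨fun τ hτ => (hB.hol τ hτ).sub (hdx τ hτ), ?_, ?_, ?_⟩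
    · intro τ hτ
      have a : 2 * h (τ + 1) * DD (DD h) (τ + 1) - DD h (τ + 1) ^ 2 =
        2 * h τ * DD (DD h) τ - DD h τ ^ 2 := hB.per τ hτ
      have b := mx.per τ hτ
      rw [a, b]
    · intro τ hτ
      have a := hB.w10 τ hτ
      have b := mx.w10 τ hτ
      simp only [zpow_zero, mul_one, one_mul] at a b ⊢
      rw [a, b]
    · intro τ hτ
      have a := hB.w5 τ hτ
      have b := mx.w5 τ hτ
      simp only [zpow_zero, mul_one, one_mul] at a b ⊢
      rw [a, b]
  set fz : LaurentSeries ℤ := 2 * hz * th (th hz) - th hz ^ 2 - (xz - 2) ^ 2 with hfz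
  have l2 : HL (fun _ => (2 : ℂ)) (zc 2) := by
    have := HL.const 2
    have e : (zc 2 : LaurentSeries ℂ) = HahnSeries.C 2 := by
      have h1 : (zc ((2 : ℤ) : LaurentSeries ℤ) : LaurentSeries ℂ) = ((2 : ℤ) : LaurentSeries ℂ) :=
        zc_intCast 2
      have h2 : (((2 : ℤ)) : LaurentSeries ℤ) = 2 := by norm_num
      rw [h2] at h1
      rw [h1]
      have h3 : (HahnSeries.C (2 : ℂ) : LaurentSeries ℂ) = 2 := map_ofNat HahnSeries.C 2
      rw [h3]
      norm_num
    rw [e]
    exact this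
  have hL : HL (fun τ => 2 * h τ * DD (DD h) τ - DD h τ ^ 2 - (x τ - 2) ^ 2) (zc fz) := by
    have a1 := h3 _ _ _ _ (h3 _ _ _ _ l2 lh) hD2
    have a2 := h3 _ _ _ _ hD1 hD1
    have a3 := lx.sub l2
    have a4 := h3 _ _ _ _ a3 a3
    have a5 := (a1.sub a2).sub a4
    have e : zc fz = zc 2 * zc hz * th (th (zc hz)) - th (zc hz) * th (zc hz) -
        (zc xz - zc 2) * (zc xz - zc 2) := by
      rw [hfz, zc_sub, zc_sub, zc_pow, zc_pow, zc_mul, zc_mul, zc_sub, zc_th, zc_th]
      ring
    rw [e]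
    refine a5.congr fun τ _ => ?_
    ring
  have hz0 : ∀ n : ℤ, n ≤ 0 → (zc fz).coeff n = 0 := by
    intro n hn
    rw [zc_coeff]
    have e2 : (2 : LaurentSeries ℤ) = HahnSeries.C 2 := by simp
    have c2 : ∀ m : ℤ, (2 : LaurentSeries ℤ).coeff m = if m = 0 then 2 else 0 := by
      intro m
      rw [e2, HahnSeries.C_apply, HahnSeries.coeff_single]
      split_ifs <;> rfl
    have tl : ∀ m : ℤ, m < -1 → (th hz).coeff m = 0 := by
      intro m hm
      rw [th_coeff, hlow m hm, mul_zero]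
    have ttl : ∀ m : ℤ, m < -1 → (th (th hz)).coeff m = 0 := by
      intro m hm
      rw [th_coeff, tl m hm, mul_zero]
    have xl : ∀ m : ℤ, m < -1 → (xz - 2).coeff m = 0 := by
      intro m hm
      rw [HahnSeries.coeff_sub, xlow m hm, c2, if_neg (by omega), sub_zero]
    obtain ⟨p1, p2, p3, p4⟩ := E2_mul_coeff hz (th (th hz)) hlow ttl
    obtain ⟨q1, q2, q3, q4⟩ := E2_mul_coeff (th hz) (th hz) tl tl
    obtain ⟨r1, r2, r3, r4⟩ := E2_mul_coeff (xz - 2) (xz - 2) xl xl
    have ef : fz.coeff n = 2 * (hz * th (th hz)).coeff n - (th hz * th hz).coeff n -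
        ((xz - 2) * (xz - 2)).coeff n := by
      have : fz = ((2 : ℤ) : LaurentSeries ℤ) * (hz * th (th hz)) - th hz * th hz -
          (xz - 2) * (xz - 2) := by
        rw [hfz]
        push_cast
        ring
      rw [this, HahnSeries.coeff_sub, HahnSeries.coeff_sub, intCast_mul_coeff]
      rfl
    rw [ef]
    have hcase : n < -2 ∨ n = -2 ∨ n = -1 ∨ n = 0 := by omega
    rcases hcase with h | h | h | h
    · rw [p1 n h, q1 n h, r1 n h]
      simp
    · subst h
      rw [p2, q2, r2]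
      simp only [th_coeff, HahnSeries.coeff_sub, c2, hm1, xm1]
      norm_num
    · subst h
      rw [p3, q3, r3]
      simp only [th_coeff, HahnSeries.coeff_sub, c2, hm1, xm1, h0, x0]
      norm_num
    · subst h
      rw [p4, q4, r4]
      simp only [th_coeff, HahnSeries.coeff_sub, c2, hm1, xm1, h0, x0, h1', x1]
      norm_num
  have := h2 _ _ hF hL hz0 τ hτ
  linear_combination this

end Pool.Agent.H32.S36
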