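import Pool.Agent.H32.S36.Targets

set_option autoImplicit false

open Complex

namespace Pool.Agent.H32.S36

theorem VEE_eta_q (n : ℕ) (z : ℂ) : ModularForm.eta_q n z = qq z ^ (n + 1) := by
  rw [ModularForm.eta_q_eq_pow]
  unfold qq
  simp

theorem VEE_prod (z : ℂ) : (∏' n, (1 - ModularForm.eta_q n z)) = ee z := by
  unfold ee
  exact tprod_congr fun n => by rw [VEE_eta_q]

theorem VEE_ne (z : ℂ) (hz : 0 < z.im) : ee z ≠ 0 := by
  rw [← VEE_prod]
  exact ModularForm.eta_tprod_ne_zero hz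

theorem VEE_gg (z : ℂ) : gg z = Complex.exp (2 * Real.pi * I * z / 12) * ee z ^ 2 := by
  unfold gg ModularForm.eta
  rw [VEE_prod, mul_pow]
  congr 1
  unfold Function.Periodic.qParam
  rw [← Complex.exp_nat_mul]
  congr 1
  push_cast
  ring

theorem VEE_exp (a : ℂ) (z : ℂ) : Complex.exp (2 * Real.pi * I * (a * z) / 12) =
    Complex.exp (a * (2 * Real.pi * I * z / 12)) := by
  congr 1
  ring

theorem m_VEE : T_VEE := by
  intro τ hτ
  have h2 : 0 < (2 * τ : ℂ).im := by simp [hτ]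
  have h5 : 0 < (5 * τ : ℂ).im := by simp [hτ]
  have h10 : 0 < (10 * τ : ℂ).im := by simp [hτ]
  have n1 := VEE_ne _ hτ
  have n2 := VEE_ne _ h2
  have n5 := VEE_ne _ h5
  have n10 := VEE_ne _ h10
  set w : ℂ := Complex.exp (2 * Real.pi * I * τ / 12) with hw
  have hw0 : w ≠ 0 := Complex.exp_ne_zero _
  have e1 : gg τ = w * ee τ ^ 2 := VEE_gg τ
  have ew : ∀ k : ℕ, Complex.exp (2 * Real.pi * I * ((k : ℂ) * τ) / 12) = w ^ k := by
    intro k
    rw [VEE_exp, Complex.exp_nat_mul]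
  have e2 : gg (2 * τ) = w ^ 2 * ee (2 * τ) ^ 2 := by
    rw [VEE_gg, ← ew 2]
    norm_num
  have e5 : gg (5 * τ) = w ^ 5 * ee (5 * τ) ^ 2 := by
    rw [VEE_gg, ← ew 5]
    norm_num
  have e10 : gg (10 * τ) = w ^ 10 * ee (10 * τ) ^ 2 := by
    rw [VEE_gg, ← ew 10]
    norm_num
  have eq : qq τ = w ^ 12 := by
    rw [hw, ← Complex.exp_nat_mul]
    unfold qq
    congr 1
    push_cast
    ring
  refine ⟨n1, ?_, ?_⟩
  · unfold fv
    rw [e1, e2, e5, e10, eq]
    generalize ee (5 * τ) = a at *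
    generalize ee (10 * τ) = b at *
    field_simp
  · unfold fD
    rw [e1, e2, e5, e10, eq]
    ring

end Pool.Agent.H32.S36
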